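import Pool.Agent.Helper71.ST.Defs

/-!
# Project ST: the exact formula for the sharp part
-/

set_option autoImplicit false

namespace Pool.Agent.Helper71.ST

open MeasureTheory Set Filter Topology
open Pool.Agent.Helper99.MS

theorem EE_e2 {p : ℝ} (hp : 4 ≤ p) (s : ℝ) : EE p s ≤ Real.exp 4 * Real.exp (2 * s) := by
  rw [← Real.exp_add]
  rcases le_total s 0 with h | h
  · refine (EE_anti hp s).trans ?_
    unfold EE
    apply Real.exp_le_exp.2
    have := XX_le s
    linarith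
  · refine (EE_le_one (by linarith) s).trans ?_
    apply Real.one_le_exp
    linarith

theorem ww_e2 {p : ℝ} (hp : 4 ≤ p) (s : ℝ) : |ww p s| ≤ p * (Real.exp 4 * Real.exp (2 * s)) := by
  rcases le_total s 0 with h | h
  · have h1 := ww_nonneg (by linarith : 0 ≤ p) h
    rw [abs_of_nonneg h1]
    unfold ww
    have h2 := EE_e2 hp s
    have h3 := EE_pos p s
    have h4 := Real.exp_pos s
    have h5 : 1 - Real.exp s ≤ 1 := by linarith
    have h6 : 0 ≤ 1 - Real.exp s := by linarith [Real.exp_le_one_iff.2 h]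
    calc p * (1 - Real.exp s) * EE p s ≤ p * 1 * EE p s := by gcongr
      _ = p * EE p s := by ring
      _ ≤ _ := mul_le_mul_of_nonneg_left h2 (by linarith)
  · refine (ww_bd hp s).trans ?_
    rw [abs_of_nonneg h]
    gcongr
    linarith

theorem EE_ab {p : ℝ} (hp : 4 ≤ p) (s : ℝ) : EE p s ≤ Real.exp 4 * Real.exp (-(4 * |s|)) := by
  rw [← Real.exp_add]
  refine (EE_anti hp s).trans ?_
  unfold EE
  apply Real.exp_le_exp.2
  rcases le_total s 0 with h | h
  · rw [abs_of_nonpos h]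
    have := XX_le s
    linarith
  · rw [abs_of_nonneg h]
    unfold XX
    have := Real.quadratic_le_exp_of_nonneg h
    nlinarith [sq_nonneg (s - 1), this]

theorem sum_Icc_range (a : ℕ → ℂ) (N : ℕ) : ∑ j ∈ Finset.Icc 1 N, a j = ∑ n ∈ Finset.range N, a (n + 1) := by
  induction N with
  | zero => simp
  | succ N ih => rw [Finset.sum_Icc_succ_top (by omega), Finset.sum_range_succ, ih]

theorem le_iff (X0 s : ℝ) (n : ℕ) : s ≤ X0 - Real.log ((n + 1 : ℕ) : ℝ) ↔ n < ⌊Real.exp (X0 - s)⌋₊ := by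
  have hn : (0:ℝ) < ((n + 1 : ℕ) : ℝ) := by positivity
  rw [← Nat.succ_le_iff, Nat.le_floor_iff (Real.exp_pos _).le]
  constructor
  · intro h
    have h1 : Real.log ((n + 1 : ℕ) : ℝ) ≤ X0 - s := by linarith
    have h2 := (Real.log_le_iff_le_exp hn).1 h1
    exact_mod_cast h2
  · intro h
    have h2 : ((n + 1 : ℕ) : ℝ) ≤ Real.exp (X0 - s) := by exact_mod_cast h
    have h1 := (Real.log_le_iff_le_exp hn).2 h2
    linarith

theorem hasSum_ind (a : ℕ → ℂ) (X0 s : ℝ) (Φ : ℝ → ℂ) :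
    HasSum (fun n : ℕ => a (n + 1) * (Iic (X0 - Real.log ((n + 1 : ℕ) : ℝ))).indicator Φ s)
      (Φ s * ∑ j ∈ Finset.Icc 1 ⌊Real.exp (X0 - s)⌋₊, a j) := by
  have h : Φ s * ∑ j ∈ Finset.Icc 1 ⌊Real.exp (X0 - s)⌋₊, a j =
      ∑ n ∈ Finset.range ⌊Real.exp (X0 - s)⌋₊, a (n + 1) * (Iic (X0 - Real.log ((n + 1 : ℕ) : ℝ))).indicator Φ s := by
    rw [sum_Icc_range, Finset.mul_sum]
    apply Finset.sum_congr rfl
    intro n hn
    rw [Set.indicator_of_mem (Set.mem_Iic.2 ((le_iff X0 s n).2 (Finset.mem_range.1 hn)))]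
    ring
  rw [h]
  apply hasSum_sum_of_ne_finset_zero
  intro n hn
  rw [Set.indicator_of_notMem, mul_zero]
  intro h1
  exact hn (Finset.mem_range.2 ((le_iff X0 s n).1 (Set.mem_Iic.1 h1)))

theorem lemG {a : ℕ → ℂ} (ha : ∀ n, ‖a n‖ ≤ 1) {Φ : ℝ → ℂ} (hΦ : Integrable Φ) {C : ℝ}
    (hC : ∀ s, ‖Φ s‖ ≤ C * Real.exp (2 * s)) (X0 : ℝ) :
    HasSum (fun n : ℕ => a (n + 1) * ∫ s in Iic (X0 - Real.log ((n + 1 : ℕ) : ℝ)), Φ s)
      (∫ s, Φ s * ∑ j ∈ Finset.Icc 1 ⌊Real.exp (X0 - s)⌋₊, a j) := by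
  set F : ℕ → ℝ → ℂ := fun n s => a (n + 1) * (Iic (X0 - Real.log ((n + 1 : ℕ) : ℝ))).indicator Φ s with hF
  have h1 : ∀ n, Integrable (F n) := fun n => (hΦ.indicator measurableSet_Iic).const_mul _
  have h2 : ∀ n : ℕ, ∫ s, ‖F n s‖ ≤ C * (Real.exp (2 * X0) / 2) * (1 / ((n + 1 : ℕ) : ℝ) ^ 2) := by
    intro n
    have hn : (0:ℝ) < ((n + 1 : ℕ) : ℝ) := by positivity
    set b := X0 - Real.log ((n + 1 : ℕ) : ℝ) with hb
    have e1 : ∫ s, ‖F n s‖ ≤ ∫ s, (Iic b).indicator (fun s => C * Real.exp (2 * s)) s := by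
      apply integral_mono (h1 n).norm
      · have e0 : IntegrableOn (fun s => C * Real.exp (2 * s)) (Iic b) :=
          (integrableOn_exp_mul_Iic (a := 2) (by norm_num) b).const_mul C
        exact e0.integrable_indicator measurableSet_Iic
      · intro s
        simp only [hF]
        rw [norm_mul]
        by_cases hs : s ∈ Iic b
        · rw [Set.indicator_of_mem hs, Set.indicator_of_mem hs]
          calc ‖a (n + 1)‖ * ‖Φ s‖ ≤ 1 * ‖Φ s‖ := mul_le_mul_of_nonneg_right (ha _) (norm_nonneg _)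
            _ = ‖Φ s‖ := one_mul _
            _ ≤ _ := hC s
        · rw [Set.indicator_of_notMem hs, Set.indicator_of_notMem hs]
          simp
    refine e1.trans (le_of_eq ?_)
    rw [integral_indicator measurableSet_Iic, integral_const_mul, integral_exp_mul_Iic (by norm_num)]
    have e2 : Real.exp (2 * b) = Real.exp (2 * X0) * (1 / ((n + 1 : ℕ) : ℝ) ^ 2) := by
      rw [hb, mul_sub, Real.exp_sub]
      have : Real.exp (2 * Real.log ((n + 1 : ℕ) : ℝ)) = ((n + 1 : ℕ) : ℝ) ^ 2 := by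
        rw [show 2 * Real.log ((n + 1 : ℕ) : ℝ) = Real.log ((n + 1 : ℕ) : ℝ) + Real.log ((n + 1 : ℕ) : ℝ) by ring,
          Real.exp_add, Real.exp_log hn, sq]
      rw [this]
      ring
    rw [e2]
    ring
  have h3 : Summable fun n => ∫ s, ‖F n s‖ := by
    apply Summable.of_nonneg_of_le (fun n => integral_nonneg fun _ => norm_nonneg _) h2
    apply Summable.mul_left
    exact (summable_nat_add_iff 1).2 (Real.summable_one_div_nat_pow.2 (by norm_num : 1 < 2))
  have h4 := hasSum_integral_of_summable_integral_norm h1 h3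
  have h5 : ∀ n : ℕ, ∫ s, F n s = a (n + 1) * ∫ s in Iic (X0 - Real.log ((n + 1 : ℕ) : ℝ)), Φ s := by
    intro n
    simp only [hF]
    rw [integral_const_mul, integral_indicator measurableSet_Iic]
  have h6 : ∀ s, ∑' n, F n s = Φ s * ∑ j ∈ Finset.Icc 1 ⌊Real.exp (X0 - s)⌋₊, a j := fun s => (hasSum_ind a X0 s Φ).tsum_eq
  simp_rw [h5, h6] at h4
  exact h4

theorem EE_integrable {p : ℝ} (hp : 4 ≤ p) : Integrable (EE p) := by
  refine Integrable.mono' (exp_abs_int.const_mul (Real.exp 4)) (EE_cont p).aestronglyMeasurable ?_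
  apply Filter.Eventually.of_forall
  intro s
  rw [Real.norm_of_nonneg (EE_pos p s).le]
  refine (EE_ab hp s).trans ?_
  gcongr
  have := abs_nonneg s
  linarith

theorem mr_le (n : ℕ) : ‖(mr n : ℂ)‖ ≤ 1 := by
  rw [Complex.norm_real, Real.norm_eq_abs]
  unfold mr
  exact_mod_cast ArithmeticFunction.abs_moebius_le_one

/-- the sharp part as a series -/
theorem gA_sum {k : ℕ} (hk : 1 ≤ k) (x : ℝ) :
    HasSum (fun n : ℕ => (mr (n + 1) : ℂ) * (EE ((4 * k : ℕ) : ℝ) (x - Real.log ((n + 1 : ℕ) : ℝ)) : ℂ))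
      (Complex.exp (x / 2) * gA k x) := by
  have hm : (4:ℝ) ≤ ((4 * k : ℕ) : ℝ) := by
    have : (1:ℝ) ≤ k := by exact_mod_cast hk
    push_cast
    linarith
  set m := ((4 * k : ℕ) : ℝ) with hmdef
  have h1 := lemG (a := fun n => (mr n : ℂ)) mr_le (Φ := fun s => (ww m s : ℂ)) (ww_int hm).ofReal
    (C := m * Real.exp 4) (by
      intro s
      rw [Complex.norm_real, Real.norm_eq_abs]
      refine (ww_e2 hm s).trans (le_of_eq ?_)
      ring) x
  have h2 : ∀ b : ℝ, ∫ s in Iic b, (ww m s : ℂ) = (EE m b : ℂ) := by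
    intro b
    rw [integral_complex_ofReal, ww_Iic hm]
  simp_rw [h2] at h1
  convert h1 using 1
  unfold gA
  rw [cv_comm, ← integral_const_mul]
  apply integral_congr_ae
  apply Filter.Eventually.of_forall
  intro s
  simp only
  unfold ff alC al Asum
  rw [← hmdef]
  push_cast
  have e : Complex.exp (x / 2) * Complex.exp (-((x - s) / 2)) * Complex.exp (-(s / 2)) = 1 := by
    rw [← Complex.exp_add, ← Complex.exp_add, ← Complex.exp_zero]
    congr 1
    ring
  linear_combination (∑ n ∈ Finset.Icc 1 ⌊Real.exp (x - s)⌋₊, (mr n : ℂ)) * (ww m s : ℂ) * e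

/-- translation of a half-line integral -/
theorem Iic_shift (h : ℝ → ℂ) (w c : ℝ) : ∫ s in Iic (w + c), h s = ∫ y in Iic w, h (y + c) := by
  rw [← integral_indicator measurableSet_Iic, ← integral_indicator measurableSet_Iic,
    ← integral_add_right_eq_self _ c]
  apply integral_congr_ae
  apply Filter.Eventually.of_forall
  intro y
  simp only
  by_cases hy : y ≤ w
  · rw [Set.indicator_of_mem (Set.mem_Iic.2 hy), Set.indicator_of_mem (Set.mem_Iic.2 (by linarith))]
  · rw [Set.indicator_of_notMem (by simpa using hy), Set.indicator_of_notMem (by simpa using hy)]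

theorem norm_exp_it (t s : ℝ) : ‖Complex.exp (t * s * Complex.I)‖ = 1 := by
  rw [show (t : ℂ) * s * Complex.I = ((t * s : ℝ) : ℂ) * Complex.I by push_cast; ring, Complex.norm_exp_ofReal_mul_I]

theorem itEE_int {m : ℝ} (hm : 4 ≤ m) (t : ℝ) : Integrable (fun s : ℝ => Complex.exp (t * s * Complex.I) * (EE m s : ℂ)) := by
  refine Integrable.mono' (EE_integrable hm) ?_ ?_
  · apply Continuous.aestronglyMeasurable
    have := EE_cont m
    fun_prop
  · apply Filter.Eventually.of_forall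
    intro s
    rw [norm_mul, norm_exp_it, one_mul, Complex.norm_real, Real.norm_of_nonneg (EE_pos m s).le]

/-- the twisted coefficient -/
noncomputable def aT (t : ℝ) (n : ℕ) : ℂ := (mr n : ℂ) * Complex.exp (((t * Real.log n : ℝ) : ℂ) * Complex.I)

theorem aT_le (t : ℝ) (n : ℕ) : ‖aT t n‖ ≤ 1 := by
  unfold aT
  rw [norm_mul, Complex.norm_exp_ofReal_mul_I, mul_one]
  exact mr_le n

/-- the outer integral as a series -/
theorem outer_sum {m : ℝ} (hm : 4 ≤ m) (t V w : ℝ) :
    HasSum (fun n : ℕ => (mr (n + 1) : ℂ) * ∫ y in Iic w, Complex.exp (t * y * Complex.I) *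
      (EE m (y + (V - Real.log ((n + 1 : ℕ) : ℝ))) : ℂ))
      (Complex.exp (((1 / 2 + t * Complex.I) * V)) * (Complex.exp ((1 / 2 + t * Complex.I) * w) *
        ∫ s, ((Real.exp (-(s / 2)) * EE m s : ℝ) : ℂ) * Dt mr t (V + w - s)) * Complex.exp (-(t * V * Complex.I))) := by
  have h1 := lemG (a := aT t) (aT_le t) (itEE_int hm t) (C := Real.exp 4) (by
    intro s
    rw [norm_mul, norm_exp_it, one_mul, Complex.norm_real, Real.norm_of_nonneg (EE_pos m s).le]
    exact EE_e2 hm s) (V + w)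
  have h2 := h1.mul_right (Complex.exp (-(t * V * Complex.I)))
  have hf : (fun n : ℕ => (mr (n + 1) : ℂ) * ∫ y in Iic w, Complex.exp (t * y * Complex.I) *
      (EE m (y + (V - Real.log ((n + 1 : ℕ) : ℝ))) : ℂ)) = fun n : ℕ => (aT t (n + 1) *
      ∫ s in Iic (V + w - Real.log ((n + 1 : ℕ) : ℝ)), Complex.exp (t * s * Complex.I) * (EE m s : ℂ)) *
        Complex.exp (-(t * V * Complex.I)) := by
    funext n
    have e1 : V + w - Real.log ((n + 1 : ℕ) : ℝ) = w + (V - Real.log ((n + 1 : ℕ) : ℝ)) := by ring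
    rw [e1, Iic_shift, aT, mul_assoc, mul_assoc, ← integral_mul_const, ← integral_const_mul, ← integral_const_mul,
      ← integral_const_mul]
    apply integral_congr_ae
    apply Filter.Eventually.of_forall
    intro y
    simp only
    have e2 : Complex.exp (((t * Real.log ((n + 1 : ℕ) : ℝ) : ℝ) : ℂ) * Complex.I) *
        (Complex.exp (t * ((y + (V - Real.log ((n + 1 : ℕ) : ℝ)) : ℝ) : ℂ) * Complex.I) * Complex.exp (-(t * V * Complex.I))) =
        Complex.exp (t * y * Complex.I) := by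
      rw [← Complex.exp_add, ← Complex.exp_add]
      congr 1
      push_cast
      ring
    rw [← e2]
    ring
  have hv : Complex.exp (((1 / 2 + t * Complex.I) * V)) * (Complex.exp ((1 / 2 + t * Complex.I) * w) *
        ∫ s, ((Real.exp (-(s / 2)) * EE m s : ℝ) : ℂ) * Dt mr t (V + w - s)) =
      ∫ s : ℝ, Complex.exp (t * s * Complex.I) * (EE m s : ℂ) * ∑ j ∈ Finset.Icc 1 ⌊Real.exp (V + w - s)⌋₊, aT t j := by
    rw [← integral_const_mul]
    rw [← integral_const_mul]
    apply integral_congr_ae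
    apply Filter.Eventually.of_forall
    intro s
    simp only
    unfold Dt Gt aT
    have e3 : Complex.exp ((1 / 2 + t * Complex.I) * V) * (Complex.exp ((1 / 2 + t * Complex.I) * w) *
        (Complex.exp (-(s / 2)) * Complex.exp (-((1 / 2 + t * Complex.I) * ((V + w - s : ℝ) : ℂ))))) =
        Complex.exp (t * s * Complex.I) := by
      rw [← Complex.exp_add, ← Complex.exp_add, ← Complex.exp_add]
      congr 1
      push_cast
      ring
    rw [← e3]
    push_cast
    ring
  rw [hf, hv]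
  exact h2

theorem gA_meas {k : ℕ} : Measurable (gA k) := by
  have h1 : StronglyMeasurable (Function.uncurry fun x y : ℝ => (ff mr (x - y) : ℂ) * alC (4 * k) y) := by
    apply Measurable.stronglyMeasurable
    apply Measurable.mul
    · exact Complex.measurable_ofReal.comp ((ff_meas mr).comp (measurable_fst.sub measurable_snd))
    · have : Continuous (alC (4 * k)) := Complex.continuous_ofReal.comp (al_cont _)
      exact this.measurable.comp measurable_snd
  have h2 := h1.integral_prod_right (ν := (volume : Measure ℝ))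
  have h3 : gA k = fun x => ∫ y, (ff mr (x - y) : ℂ) * alC (4 * k) y := by
    funext x
    unfold gA
    rw [cv_comm]
  rw [h3]
  exact h2.measurable

/-- the inner function -/
noncomputable def HH (k : ℕ) (t V y : ℝ) : ℂ := Complex.exp ((1 / 2 + t * Complex.I) * y) * gA k (V + y)

theorem HH_meas {k : ℕ} (t V : ℝ) : Measurable (HH k t V) := by
  unfold HH
  apply Measurable.mul
  · exact Continuous.measurable (by fun_prop)
  · exact gA_meas.comp (measurable_const.add measurable_id)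

theorem four_le {k : ℕ} (hk : 1 ≤ k) : (4:ℝ) ≤ ((4 * k : ℕ) : ℝ) := by
  have : (1:ℝ) ≤ k := by exact_mod_cast hk
  push_cast
  linarith

/-- termwise: `HH` is a series -/
theorem HH_sum {k : ℕ} (hk : 1 ≤ k) (t V y : ℝ) :
    HasSum (fun n : ℕ => (mr (n + 1) : ℂ) * (Complex.exp (t * y * Complex.I) *
      (EE ((4 * k : ℕ) : ℝ) (y + (V - Real.log ((n + 1 : ℕ) : ℝ))) : ℂ))) (Complex.exp (V / 2) * HH k t V y) := by
  have h1 := (gA_sum hk (V + y)).mul_left (Complex.exp (t * y * Complex.I))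
  have hf : (fun n : ℕ => (mr (n + 1) : ℂ) * (Complex.exp (t * y * Complex.I) *
      (EE ((4 * k : ℕ) : ℝ) (y + (V - Real.log ((n + 1 : ℕ) : ℝ))) : ℂ))) = fun n : ℕ => Complex.exp (t * y * Complex.I) *
      ((mr (n + 1) : ℂ) * (EE ((4 * k : ℕ) : ℝ) (V + y - Real.log ((n + 1 : ℕ) : ℝ)) : ℂ)) := by
    funext n
    rw [show y + (V - Real.log ((n + 1 : ℕ) : ℝ)) = V + y - Real.log ((n + 1 : ℕ) : ℝ) by ring]
    ring
  have hv : Complex.exp (V / 2) * HH k t V y = Complex.exp (t * y * Complex.I) * (Complex.exp (((V + y : ℝ) : ℂ) / 2) * gA k (V + y)) := by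
    unfold HH
    have : Complex.exp (V / 2) * Complex.exp ((1 / 2 + t * Complex.I) * y) =
        Complex.exp (t * y * Complex.I) * Complex.exp (((V + y : ℝ) : ℂ) / 2) := by
      rw [← Complex.exp_add, ← Complex.exp_add]
      congr 1
      push_cast
      ring
    linear_combination this * gA k (V + y)
  rw [hf, hv]
  exact h1

theorem term_bd {m : ℝ} (hm : 4 ≤ m) (t V y : ℝ) (n : ℕ) :
    ‖(mr (n + 1) : ℂ) * (Complex.exp (t * y * Complex.I) * (EE m (y + (V - Real.log ((n + 1 : ℕ) : ℝ))) : ℂ))‖ ≤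
      (Real.exp 4 * Real.exp (2 * V) * (1 / ((n + 1 : ℕ) : ℝ) ^ 2)) * Real.exp (2 * y) := by
  rw [norm_mul, norm_mul, norm_exp_it, one_mul, Complex.norm_real (EE m _), Real.norm_of_nonneg (EE_pos m _).le]
  have hn : (0:ℝ) < ((n + 1 : ℕ) : ℝ) := by positivity
  calc ‖(mr (n + 1) : ℂ)‖ * EE m (y + (V - Real.log ((n + 1 : ℕ) : ℝ)))
      ≤ 1 * (Real.exp 4 * Real.exp (2 * (y + (V - Real.log ((n + 1 : ℕ) : ℝ))))) := by
        apply mul_le_mul (mr_le _) (EE_e2 hm _) (EE_pos m _).le zero_le_one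
    _ = _ := by
        rw [mul_add, mul_sub, Real.exp_add, Real.exp_sub]
        have : Real.exp (2 * Real.log ((n + 1 : ℕ) : ℝ)) = ((n + 1 : ℕ) : ℝ) ^ 2 := by
          rw [show 2 * Real.log ((n + 1 : ℕ) : ℝ) = Real.log ((n + 1 : ℕ) : ℝ) + Real.log ((n + 1 : ℕ) : ℝ) by ring,
            Real.exp_add, Real.exp_log hn, sq]
        rw [this]
        ring

theorem sq_summable : Summable fun n : ℕ => 1 / ((n + 1 : ℕ) : ℝ) ^ 2 :=
  (summable_nat_add_iff 1).2 (Real.summable_one_div_nat_pow.2 (by norm_num : 1 < 2))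

/-- pointwise bound of `HH` -/
theorem HH_bd {k : ℕ} (hk : 1 ≤ k) (t V : ℝ) : ∃ C : ℝ, 0 ≤ C ∧ ∀ y, ‖HH k t V y‖ ≤ C * Real.exp (2 * y) := by
  refine ⟨Real.exp (-(V / 2)) * (Real.exp 4 * Real.exp (2 * V) * ∑' n : ℕ, 1 / ((n + 1 : ℕ) : ℝ) ^ 2), ?_, ?_⟩
  · apply mul_nonneg (Real.exp_pos _).le
    apply mul_nonneg (by positivity)
    exact tsum_nonneg fun n => by positivity
  · intro y
    have h1 := HH_sum hk t V y
    have h2 : ‖Complex.exp (V / 2) * HH k t V y‖ ≤ (Real.exp 4 * Real.exp (2 * V) * ∑' n : ℕ, 1 / ((n + 1 : ℕ) : ℝ) ^ 2) * Real.exp (2 * y) := by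
      rw [← h1.tsum_eq, ← tsum_mul_left, ← tsum_mul_right]
      apply tsum_of_norm_bounded _ (fun n => term_bd (four_le hk) t V y n)
      apply Summable.hasSum
      exact (sq_summable.mul_left _).mul_right _
    rw [norm_mul] at h2
    have h3 : ‖Complex.exp ((V : ℂ) / 2)‖ = Real.exp (V / 2) := by
      rw [show (V : ℂ) / 2 = ((V / 2 : ℝ) : ℂ) by push_cast; ring, Complex.norm_exp_ofReal]
    rw [h3] at h2
    have h4 : Real.exp (-(V / 2)) * Real.exp (V / 2) = 1 := by
      rw [← Real.exp_add]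
      simp
    calc ‖HH k t V y‖ = Real.exp (-(V / 2)) * (Real.exp (V / 2) * ‖HH k t V y‖) := by
          rw [← mul_assoc, h4, one_mul]
      _ ≤ Real.exp (-(V / 2)) * ((Real.exp 4 * Real.exp (2 * V) * ∑' n : ℕ, 1 / ((n + 1 : ℕ) : ℝ) ^ 2) * Real.exp (2 * y)) :=
          mul_le_mul_of_nonneg_left h2 (Real.exp_pos _).le
      _ = _ := by ring

theorem HH_Iic {k : ℕ} (hk : 1 ≤ k) (t V w : ℝ) : IntegrableOn (HH k t V) (Iic w) := by
  obtain ⟨C, hC0, hC⟩ := HH_bd hk t V
  have e0 : IntegrableOn (fun s => C * Real.exp (2 * s)) (Iic w) :=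
    (integrableOn_exp_mul_Iic (a := 2) (by norm_num) w).const_mul C
  refine Integrable.mono' e0 (HH_meas t V).aestronglyMeasurable ?_
  exact Filter.Eventually.of_forall hC

/-- the inner identity -/
theorem inner_eq {k : ℕ} (hk : 1 ≤ k) (t V w : ℝ) : ∫ y in Iic w, HH k t V y =
    Complex.exp ((1 / 2 + t * Complex.I) * w) * ∫ s, ((Real.exp (-(s / 2)) * EE ((4 * k : ℕ) : ℝ) s : ℝ) : ℂ) * Dt mr t (V + w - s) := by
  have hm := four_le hk
  set m := ((4 * k : ℕ) : ℝ) with hmdef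
  have h1 := outer_sum hm t V w
  set F : ℕ → ℝ → ℂ := fun n y => (mr (n + 1) : ℂ) * (Complex.exp (t * y * Complex.I) *
      (EE m (y + (V - Real.log ((n + 1 : ℕ) : ℝ))) : ℂ)) with hF
  have i1 : ∀ n, Integrable (F n) (volume.restrict (Iic w)) := by
    intro n
    have e0 : IntegrableOn (fun s => (Real.exp 4 * Real.exp (2 * V) * (1 / ((n + 1 : ℕ) : ℝ) ^ 2)) * Real.exp (2 * s)) (Iic w) :=
      (integrableOn_exp_mul_Iic (a := 2) (by norm_num) w).const_mul _
    refine Integrable.mono' e0 ?_ ?_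
    · apply Continuous.aestronglyMeasurable
      have := EE_cont m
      simp only [hF]
      fun_prop
    · exact Filter.Eventually.of_forall fun y => term_bd hm t V y n
  have i2 : Summable fun n => ∫ y in Iic w, ‖F n y‖ := by
    apply Summable.of_nonneg_of_le (fun n => integral_nonneg fun _ => norm_nonneg _)
      (f := fun n : ℕ => (Real.exp 4 * Real.exp (2 * V) * (1 / ((n + 1 : ℕ) : ℝ) ^ 2)) * (Real.exp (2 * w) / 2))
    · intro n
      rw [← integral_exp_mul_Iic (by norm_num), ← integral_const_mul]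
      apply integral_mono (i1 n).norm
      · exact (integrableOn_exp_mul_Iic (a := 2) (by norm_num) w).const_mul _
      · intro y
        exact term_bd hm t V y n
    · exact (sq_summable.mul_left _).mul_right _
  have h2 := hasSum_integral_of_summable_integral_norm i1 i2
  have h3 : ∀ n : ℕ, ∫ y in Iic w, F n y = (mr (n + 1) : ℂ) * ∫ y in Iic w, Complex.exp (t * y * Complex.I) *
      (EE m (y + (V - Real.log ((n + 1 : ℕ) : ℝ))) : ℂ) := by
    intro n
    simp only [hF]
    rw [integral_const_mul]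
  have h4 : ∀ y, ∑' n, F n y = Complex.exp (V / 2) * HH k t V y := fun y => (HH_sum hk t V y).tsum_eq
  simp_rw [h3, h4] at h2
  have h5 := h2.unique h1
  rw [integral_const_mul] at h5
  have h6 : Complex.exp ((1 / 2 + t * Complex.I) * V) * Complex.exp (-(t * V * Complex.I)) = Complex.exp (V / 2) := by
    rw [← Complex.exp_add]
    congr 1
    ring
  have h7 : Complex.exp ((V : ℂ) / 2) ≠ 0 := Complex.exp_ne_zero _
  apply mul_left_cancel₀ h7
  rw [h5, ← h6]
  ring

theorem inner_cont {k : ℕ} (hk : 2 ≤ k) (t V : ℝ) : Continuous fun w : ℝ =>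
    Complex.exp ((1 / 2 + t * Complex.I) * w) * ∫ s, ((Real.exp (-(s / 2)) * EE ((4 * k : ℕ) : ℝ) s : ℝ) : ℂ) * Dt mr t (V + w - s) := by
  have h1 : (fun w : ℝ => Complex.exp ((1 / 2 + t * Complex.I) * w) *
      ∫ s, ((Real.exp (-(s / 2)) * EE ((4 * k : ℕ) : ℝ) s : ℝ) : ℂ) * Dt mr t (V + w - s)) =
      fun w => (∫ y in Iic (0:ℝ), HH k t V y) + ∫ y in (0:ℝ)..w, HH k t V y := by
    funext w
    rw [← inner_eq (by omega), ← intervalIntegral.integral_Iic_sub_Iic (HH_Iic (by omega) t V 0) (HH_Iic (by omega) t V w)]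
    ring
  rw [h1]
  apply continuous_const.add
  apply intervalIntegral.continuous_primitive
  intro a b
  have h2 := HH_Iic (k := k) (by omega) t V (max a b)
  constructor
  · exact h2.mono_set fun x hx => Set.mem_Iic.2 (hx.2.trans (le_max_right _ _))
  · exact h2.mono_set fun x hx => Set.mem_Iic.2 (hx.2.trans (le_max_left _ _))

theorem om_ind (v0 δ : ℝ) : om v0 δ = fun w => (2 * δ)⁻¹ * ((Icc (v0 - δ) (v0 + δ)).indicator (fun _ => (1:ℝ)) w -
    (Icc (-(1 / 4) - δ) (-(1 / 4) + δ)).indicator (fun _ => (1:ℝ)) w) := by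
  funext w
  unfold om
  have h1 : (if |w - v0| ≤ δ then (1:ℝ) else 0) = (Icc (v0 - δ) (v0 + δ)).indicator (fun _ => (1:ℝ)) w := by
    by_cases h : |w - v0| ≤ δ
    · have h' := abs_le.1 h
      rw [if_pos h, Set.indicator_of_mem (Set.mem_Icc.2 ⟨by linarith [h'.1], by linarith [h'.2]⟩)]
    · rw [if_neg h, Set.indicator_of_notMem]
      intro h1
      exact h (abs_le.2 ⟨by linarith [h1.1], by linarith [h1.2]⟩)
  have h2 : (if |w + 1 / 4| ≤ δ then (1:ℝ) else 0) = (Icc (-(1 / 4) - δ) (-(1 / 4) + δ)).indicator (fun _ => (1:ℝ)) w := by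
    by_cases h : |w + 1 / 4| ≤ δ
    · have h' := abs_le.1 h
      rw [if_pos h, Set.indicator_of_mem (Set.mem_Icc.2 ⟨by linarith [h'.1], by linarith [h'.2]⟩)]
    · rw [if_neg h, Set.indicator_of_notMem]
      intro h1
      exact h (abs_le.2 ⟨by linarith [h1.1], by linarith [h1.2]⟩)
  rw [h1, h2]

theorem om_integrable (v0 δ : ℝ) : Integrable (om v0 δ) := by
  rw [om_ind]
  apply Integrable.const_mul
  apply Integrable.sub
  · exact (integrable_indicator_iff measurableSet_Icc).2 (by simp)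
  · exact (integrable_indicator_iff measurableSet_Icc).2 (by simp)

theorem om_far {v0 δ : ℝ} (hδ : 0 < δ) (hv : 1 / 4 ≤ v0) {w : ℝ} (hw : v0 + δ < w) : om v0 δ w = 0 := by
  unfold om
  rw [if_neg, if_neg]
  · simp
  · intro h
    have := (abs_le.1 h).2
    linarith
  · intro h
    have := (abs_le.1 h).2
    linarith

theorem tc_gA {k : ℕ} (hk : 2 ≤ k) {v0 δ : ℝ} (hδ : 0 < δ) (hδ1 : δ ≤ 1 / 16) (hv : 1 / 4 ≤ v0) (t V : ℝ) :
    Tc (fk t v0 δ) (gA k) V = ∫ w, (om v0 δ w : ℂ) * (Complex.exp ((1 / 2 + t * Complex.I) * w) *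
      ∫ s, ((Real.exp (-(s / 2)) * EE ((4 * k : ℕ) : ℝ) s : ℝ) : ℂ) * Dt mr t (V + w - s)) := by
  have hk1 : 1 ≤ k := by omega
  set c := v0 + δ with hc
  have i1 : Integrable (fun y => (Iic c).indicator (HH k t V) y) := (HH_Iic hk1 t V c).integrable_indicator measurableSet_Iic
  have i2 : Integrable (fun w => (om v0 δ w : ℂ)) := (om_integrable v0 δ).ofReal
  have hP : Integrable (fun p : ℝ × ℝ => {p : ℝ × ℝ | p.1 < p.2}.indicator
      (fun p => (Iic c).indicator (HH k t V) p.1 * (om v0 δ p.2 : ℂ)) p) (volume.prod volume) :=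
    (i1.mul_prod i2).indicator (measurableSet_lt measurable_fst measurable_snd)
  have hs := integral_integral_swap (f := fun y w : ℝ => {p : ℝ × ℝ | p.1 < p.2}.indicator
      (fun p => (Iic c).indicator (HH k t V) p.1 * (om v0 δ p.2 : ℂ)) (y, w)) hP
  have e1 : Tc (fk t v0 δ) (gA k) V = ∫ y : ℝ, ∫ w : ℝ, {p : ℝ × ℝ | p.1 < p.2}.indicator
      (fun p => (Iic c).indicator (HH k t V) p.1 * (om v0 δ p.2 : ℂ)) (y, w) := by
    unfold Tc
    apply integral_congr_ae
    apply Filter.Eventually.of_forall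
    intro y
    simp only
    have e2 : ∫ w : ℝ, {p : ℝ × ℝ | p.1 < p.2}.indicator
        (fun p => (Iic c).indicator (HH k t V) p.1 * (om v0 δ p.2 : ℂ)) (y, w) =
        (Iic c).indicator (HH k t V) y * (Wf v0 δ y : ℂ) := by
      unfold Wf
      rw [← integral_complex_ofReal, ← integral_indicator measurableSet_Ioi, ← integral_const_mul]
      apply integral_congr_ae
      apply Filter.Eventually.of_forall
      intro w
      simp only
      by_cases h : y < w
      · rw [Set.indicator_of_mem (show ((y, w) : ℝ × ℝ) ∈ {p : ℝ × ℝ | p.1 < p.2} from h),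
          Set.indicator_of_mem (Set.mem_Ioi.2 h)]
      · rw [Set.indicator_of_notMem (show ((y, w) : ℝ × ℝ) ∉ {p : ℝ × ℝ | p.1 < p.2} from h),
          Set.indicator_of_notMem (show w ∉ Ioi y from h), mul_zero]
    rw [e2]
    by_cases hy : y ≤ c
    · rw [Set.indicator_of_mem (Set.mem_Iic.2 hy)]
      unfold fk HH
      ring
    · have e3 : Wf v0 δ y = 0 := by
        unfold Wf
        apply setIntegral_eq_zero_of_forall_eq_zero
        intro w hw
        have := Set.mem_Ioi.1 hw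
        exact om_far hδ hv (by linarith [not_le.1 hy])
      unfold fk
      rw [e3]
      simp
  rw [e1, hs]
  apply integral_congr_ae
  apply Filter.Eventually.of_forall
  intro w
  simp only
  rw [← inner_eq hk1]
  by_cases hw : w ≤ c
  · rw [integral_Iic_eq_integral_Iio, ← integral_indicator measurableSet_Iio, ← integral_const_mul]
    apply integral_congr_ae
    apply Filter.Eventually.of_forall
    intro y
    simp only
    by_cases h : y < w
    · rw [Set.indicator_of_mem (show ((y, w) : ℝ × ℝ) ∈ {p : ℝ × ℝ | p.1 < p.2} from h),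
        Set.indicator_of_mem (Set.mem_Iio.2 h)]
      simp only
      rw [Set.indicator_of_mem (Set.mem_Iic.2 (by linarith))]
      ring
    · rw [Set.indicator_of_notMem (show ((y, w) : ℝ × ℝ) ∉ {p : ℝ × ℝ | p.1 < p.2} from h),
        Set.indicator_of_notMem (by simpa using h), mul_zero]
  · have e4 : om v0 δ w = 0 := om_far hδ hv (not_le.1 hw)
    rw [e4]
    simp only [Complex.ofReal_zero, zero_mul]
    rw [← integral_zero ℝ ℂ]
    apply integral_congr_ae
    apply Filter.Eventually.of_forall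
    intro y
    simp only
    by_cases h : y < w
    · rw [Set.indicator_of_mem (show ((y, w) : ℝ × ℝ) ∈ {p : ℝ × ℝ | p.1 < p.2} from h)]
      simp [e4]
    · rw [Set.indicator_of_notMem (show ((y, w) : ℝ × ℝ) ∉ {p : ℝ × ℝ | p.1 < p.2} from h)]

theorem Dt_neg (a : ℕ → ℝ) (t : ℝ) {x : ℝ} (hx : x < 0) : Dt a t x = 0 := by
  unfold Dt Gt
  have h1 : ⌊Real.exp x⌋₊ = 0 := Nat.floor_eq_zero.2 (by rw [← Real.exp_zero]; exact Real.exp_lt_exp.2 hx)
  rw [h1]
  simp

theorem Gt_le (t x : ℝ) (hx : 0 ≤ x) : ‖Gt mr t x‖ ≤ x := by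
  unfold Gt
  refine (norm_sum_le _ _).trans ?_
  have h1 : ∀ n ∈ Finset.Icc 1 ⌊x⌋₊, ‖(mr n : ℂ) * Complex.exp (((t * Real.log n : ℝ) : ℂ) * Complex.I)‖ ≤ 1 := by
    intro n _
    exact aT_le t n
  refine (Finset.sum_le_sum h1).trans ?_
  rw [Finset.sum_const, Nat.card_Icc]
  simp only [nsmul_eq_mul, mul_one]
  rw [Nat.add_sub_cancel]
  exact Nat.floor_le hx

theorem Dt_le (t x : ℝ) : ‖Dt mr t x‖ ≤ Real.exp (x / 2) := by
  unfold Dt
  rw [norm_mul, Complex.norm_exp]
  have h1 : (-((1 / 2 + (t : ℂ) * Complex.I) * x)).re = -(x / 2) := by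
    simp
    ring
  rw [h1]
  calc ‖Gt mr t (Real.exp x)‖ * Real.exp (-(x / 2)) ≤ Real.exp x * Real.exp (-(x / 2)) :=
        mul_le_mul_of_nonneg_right (Gt_le t _ (Real.exp_pos x).le) (Real.exp_pos _).le
    _ = Real.exp (x / 2) := by
        rw [← Real.exp_add]
        congr 1
        ring

end Pool.Agent.Helper71.ST
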