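import Pool.Agent.Helper96.EQ.R

/-!
# Project ST (MP_a499ba_nt): sums of the Möbius function with a slow unimodular twist. Definitions
-/

set_option autoImplicit false

namespace Pool.Agent.Helper71.ST

open MeasureTheory Pool.Agent.Helper99.MS

/-- the average of a complex function with a complex kernel -/
noncomputable def Tc (f : ℝ → ℂ) (g : ℝ → ℂ) (V : ℝ) : ℂ := ∫ y : ℝ, f y * g (V + y)

/-- `∑_{n ≤ x} a(n) n^{it}` -/
noncomputable def Gt (a : ℕ → ℝ) (t x : ℝ) : ℂ :=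
  ∑ n ∈ Finset.Icc 1 ⌊x⌋₊, (a n : ℂ) * Complex.exp (((t * Real.log n : ℝ) : ℂ) * Complex.I)

/-- `x ↦ e^{-(1/2 + it) x} ∑_{n ≤ e^x} a(n) n^{it}` -/
noncomputable def Dt (a : ℕ → ℝ) (t x : ℝ) : ℂ := Gt a t (Real.exp x) * Complex.exp (-((1 / 2 + t * Complex.I) * x))

open Classical in
/-- the difference of two densities, one around `v0`, one around `-1/4` -/
noncomputable def om (v0 δ w : ℝ) : ℝ := (2 * δ)⁻¹ * ((if |w - v0| ≤ δ then 1 else 0) - (if |w + 1 / 4| ≤ δ then 1 else 0))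

/-- the trapezoid -/
noncomputable def Wf (v0 δ y : ℝ) : ℝ := ∫ w in Set.Ioi y, om v0 δ w

/-- the kernel -/
noncomputable def fk (t v0 δ y : ℝ) : ℂ := Complex.exp ((1 / 2 + t * Complex.I) * y) * (Wf v0 δ y : ℂ)

/-- `∫ EE m` -/
noncomputable def I0 (m : ℝ) : ℝ := ∫ s : ℝ, EE m s

/-- the sharp part of the smoothed function -/
noncomputable def gA (k : ℕ) : ℝ → ℂ := cv (ff mr) (alC (4 * k))

/-- the dual part -/
noncomputable def gB (k : ℕ) (v : ℝ) : ℂ := cv (ff mr) (be (4 * k)) (-v)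

end Pool.Agent.Helper71.ST
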