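import Pool.Agent.Helper71.ST.C2
import Pool.Agent.Helper96.ST.P

/-!
# Project ST: the core
-/

set_option autoImplicit false

namespace Pool.Agent.Helper71.ST

open MeasureTheory Set Filter Topology
open Pool.Agent.Helper99.MS

/-- the final inequality -/
theorem fin_ineq {x I K c q C₁ B X a D β e γ b η n16 : ℝ} (hI : 0 < I) (hq : 1 ≤ q) (hx : 0 ≤ x) (hK : 0 ≤ K) (hB : 0 ≤ B)
    (hc : 0 ≤ c) (hC : 0 ≤ C₁) (hX : X = x * I) (hD : D ≤ K * q * I) (hD0 : 0 ≤ D) (ha : a ≤ I) (hβ0 : 0 ≤ β) (hβ : β ≤ 1)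
    (hn : n16 * β ≤ 1) (he : e * γ ≤ q * I) (he0 : 0 ≤ e) (hb : b ≤ c * B * I) (hη : η ≤ 9 * γ)
    (h : 2 * Real.pi * (X - (1 / 2 * X + a + D)) - (X + (n16 * I + D)) * β - e * γ ≤
      2 * Real.pi * (5 * q * (2 * C₁ * I + b) + D) + e * η + I) :
    x ≤ (100 + 17 * K + 40 * c * B) * (C₁ + 1) * q := by
  have hpi3 := Real.pi_gt_three
  have hpi4 := Real.pi_le_four
  have hX0 : 0 ≤ X := by rw [hX]; positivity
  have hqI : I ≤ q * I := by nlinarith
  have h1 : X * β ≤ X := by nlinarith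
  have h2 : n16 * I * β ≤ q * I := by
    have : n16 * I * β = (n16 * β) * I := by ring
    rw [this]
    nlinarith
  have h3 : D * β ≤ K * q * I := by nlinarith
  have h4 : e * η ≤ 9 * (q * I) := by
    have : e * η ≤ e * (9 * γ) := mul_le_mul_of_nonneg_left hη he0
    linarith
  have h5 : 2 * Real.pi * (a + D) ≤ 8 * (q * I + K * q * I) := by
    have h6 : a + D ≤ q * I + K * q * I := by linarith
    have h7 : 0 ≤ q * I + K * q * I := by positivity
    calc 2 * Real.pi * (a + D) ≤ 2 * Real.pi * (q * I + K * q * I) := by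
          apply mul_le_mul_of_nonneg_left h6
          positivity
      _ ≤ 8 * (q * I + K * q * I) := by nlinarith
  have h8 : 2 * Real.pi * (5 * q * (2 * C₁ * I + b) + D) ≤ 8 * (5 * q * (2 * C₁ * I + c * B * I) + K * q * I) := by
    have h9 : 5 * q * (2 * C₁ * I + b) + D ≤ 5 * q * (2 * C₁ * I + c * B * I) + K * q * I := by gcongr
    have h10 : 0 ≤ 5 * q * (2 * C₁ * I + c * B * I) + K * q * I := by positivity
    calc 2 * Real.pi * (5 * q * (2 * C₁ * I + b) + D) ≤ 2 * Real.pi * (5 * q * (2 * C₁ * I + c * B * I) + K * q * I) := by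
          apply mul_le_mul_of_nonneg_left h9
          positivity
      _ ≤ _ := by nlinarith
  have h11 : 3 * X ≤ Real.pi * X := by nlinarith
  have h12 : 2 * X ≤ (I * q) * (100 + 17 * K + 40 * c * B + 80 * C₁) := by nlinarith
  have h13 : X ≤ ((100 + 17 * K + 40 * c * B) * (C₁ + 1) * q) * I := by
    have h14 : (I * q) * (100 + 17 * K + 40 * c * B + 80 * C₁) ≤ ((100 + 17 * K + 40 * c * B) * (C₁ + 1) * q) * I := by
      have h15 : 100 + 17 * K + 40 * c * B + 80 * C₁ ≤ (100 + 17 * K + 40 * c * B) * (C₁ + 1) := by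
        have : 0 ≤ (17 * K + 40 * c * B) * C₁ := by positivity
        nlinarith
      calc (I * q) * (100 + 17 * K + 40 * c * B + 80 * C₁) ≤ (I * q) * ((100 + 17 * K + 40 * c * B) * (C₁ + 1)) :=
            mul_le_mul_of_nonneg_left h15 (by positivity)
        _ = _ := by ring
    linarith
  rw [hX] at h13
  exact le_of_mul_le_mul_right h13 hI

/-- consequences of the size condition -/
theorem size_facts {T : ℕ} (hT : 16 ≤ T) {U : ℝ} (hU : Real.exp 1 ≤ U)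
    (hc : (T : ℝ) ^ 4 * (1 + Real.log (Real.log U)) ≤ √(Real.log U)) :
    8 * (T : ℝ) ≤ U ∧ ((⌊Real.exp (√(Real.log U))⌋₊ : ℕ) : ℝ) * (2 * U) + 1 ≤ U ^ 2 ∧
      2 * U * ((⌊Real.exp (√(Real.log U))⌋₊ : ℕ) : ℝ) + U ≤ 4 * U * Real.exp (√(Real.log U)) := by
  have hT' : (16:ℝ) ≤ T := by exact_mod_cast hT
  have hU0 : 0 < U := lt_of_lt_of_le (Real.exp_pos 1) hU
  have hl1 : 1 ≤ Real.log U := (Real.le_log_iff_exp_le hU0).2 hU
  have hll : 0 ≤ Real.log (Real.log U) := Real.log_nonneg hl1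
  set l := Real.log U with hl
  have hs1 : (T : ℝ) ^ 4 ≤ √l := by
    have : (0:ℝ) ≤ (T : ℝ) ^ 4 := by positivity
    nlinarith
  have hT4 : 8 * (T : ℝ) ≤ (T : ℝ) ^ 4 := by
    have : (8:ℝ) ≤ (T:ℝ) ^ 3 := by
      have := pow_le_pow_left₀ (by norm_num) hT' 3
      norm_num at this
      linarith
    nlinarith
  have hs16 : 16 ≤ √l := by linarith
  have hsq : √l * √l = l := Real.mul_self_sqrt (by linarith)
  have hsl : √l ≤ l / 4 := by nlinarith
  have hlU : l ≤ U := by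
    have := Real.log_le_sub_one_of_pos hU0
    linarith
  set E := Real.exp (√l) with hE
  have hJ : ((⌊E⌋₊ : ℕ) : ℝ) ≤ E := Nat.floor_le (Real.exp_pos _).le
  have hE1 : 1 ≤ E := Real.one_le_exp (Real.sqrt_nonneg _)
  refine ⟨by nlinarith, ?_, ?_⟩
  · have hEU : E ^ 4 ≤ U := by
      have h1 : E ^ 4 = Real.exp (4 * √l) := by
        rw [hE, ← Real.exp_nat_mul]
        norm_num
      rw [h1, ← Real.exp_log hU0]
      apply Real.exp_le_exp.2
      linarith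
    have hE2 : 2 ≤ E := by
      have := Real.add_one_le_exp (√l)
      linarith
    have h3 : E * (2 * U) + 1 ≤ U ^ 2 := by
      have h4 : 4 * E ≤ E ^ 4 := by
        have h8 : (4:ℝ) ≤ E ^ 3 := by
          have := pow_le_pow_left₀ (by norm_num) hE2 3
          norm_num at this
          linarith
        nlinarith
      have hU8 : 8 ≤ U := by nlinarith
      nlinarith
    have h5 : ((⌊E⌋₊ : ℕ) : ℝ) * (2 * U) ≤ E * (2 * U) := by gcongr
    linarith
  · have h5 : 2 * U * ((⌊E⌋₊ : ℕ) : ℝ) ≤ 2 * U * E := by gcongr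
    nlinarith

/-- **The core.** -/
theorem core (B : ℝ) : ∃ (c : ℝ) (T₀ : ℕ), 0 < c ∧ ∀ T : ℕ, T₀ ≤ T → ∀ t U C₁ : ℝ, |t| ≤ T → Real.exp 1 ≤ U → GB (ff mr) B →
    (T : ℝ) ^ 4 * (1 + Real.log (Real.log U)) ≤ √(Real.log U) → 0 ≤ C₁ →
    (∀ x : ℝ, U ≤ x → x ≤ 4 * U * Real.exp (√(Real.log U)) → ‖Gt mr t (Real.exp x)‖ ≤ C₁ * Real.exp (x / 2)) →
    ∀ n : ℕ, 1 ≤ n → n ≤ T → ‖Gt mr t n‖ ≤ c * (C₁ + 1) * √n := by
  by_cases hB : 0 ≤ B
  swap
  · exact ⟨1, 0, one_pos, fun T _ t U C₁ _ _ h => absurd h.nonneg hB⟩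
  have hCE := CE_nonneg
  obtain ⟨Tp, hTp⟩ := Pool.Agent.Helper96.ST.pig B
  obtain ⟨T₁, hT₁⟩ := Filter.eventually_atTop.1 (num2.and (num4 hB))
  refine ⟨100 + 17 * (1824 * B * CE) + 40 * 829440 * B, max (max Tp T₁) 6144, by positivity, ?_⟩
  intro T hT t U C₁ ht hU h hc hC hw n hn hnT
  have hTp' : Tp ≤ T := le_trans (le_trans (le_max_left _ _) (le_max_left _ _)) hT
  have hT1' : T₁ ≤ T := le_trans (le_trans (le_max_right _ _) (le_max_left _ _)) hT
  have hT6 : 6144 ≤ T := le_trans (le_max_right _ _) hT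
  have hT6' : (6144:ℝ) ≤ T := by exact_mod_cast hT6
  have hn' : (1:ℝ) ≤ n := by exact_mod_cast hn
  have hnT' : (n:ℝ) ≤ T := by exact_mod_cast hnT
  obtain ⟨hn2, hn4⟩ := hT₁ T hT1'
  obtain ⟨s1, s2, s3⟩ := size_facts (by omega) hU hc
  have hU1 : 1 ≤ U := by linarith
  have hm : (4:ℝ) ≤ ((4 * T ^ 3 : ℕ) : ℝ) := by
    push_cast
    have : (1:ℝ) ≤ (T:ℝ) ^ 3 := one_le_pow₀ (by linarith)
    linarith
  have hp := hTp T hTp' n U hn hnT hU hc
  have hmain := core_step h (by omega) hn hnT ht s1 hC s2 rfl hp (fun x hx1 hx2 => hw x hx1 (hx2.trans s3))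
  have hI0 : 0 < I0 ((4 * T ^ 3 : ℕ) : ℝ) := lt_of_lt_of_le (by positivity) (I0_ge' (T := T) (by omega))
  have hIs := Pool.Agent.Helper47.ST.I0_ge hm
  set m := ((4 * T ^ 3 : ℕ) : ℝ) with hmdef
  have hq : 1 ≤ √(n:ℝ) := Real.one_le_sqrt.2 hn'
  have hsm : 0 < √m := Real.sqrt_pos.2 (by linarith)
  have hD : eD B n m ≤ (1824 * B * CE) * √n * I0 m := by
    unfold eD
    have : 912 * B * CE * √n / √m = (1824 * B * CE) * √n * (1 / (2 * √m)) := by
      field_simp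
      ring
    rw [this]
    gcongr
  have hD0 : 0 ≤ eD B n m := by
    unfold eD
    positivity
  have hT0 : (0:ℝ) < T := by linarith
  have hβ : (16:ℝ) / ((T : ℝ) ^ 3 * (1 / (24 * T))) = 384 / (T:ℝ) ^ 2 := by
    field_simp
    ring
  have hγ : 32 / ((T : ℝ) ^ 3 * (1 / 2)) + 96 / (T : ℝ) ^ 3 = 160 / (T : ℝ) ^ 3 := by
    field_simp
    ring
  have hcc : 0 ≤ cC2 B m := Pool.Agent.Helper96.EQ.cC2_nonneg hB (by linarith)
  have he0 : 0 ≤ eC B T n m := by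
    unfold eC
    have := ell_nonneg ((T : ℝ) + 2)
    positivity
  rw [hβ, hγ] at hmain
  refine fin_ineq (X := ‖Gt mr t n‖ * I0 m) (a := 600 * ((n:ℝ) + 1) * Real.exp (-((m - 4) * (1 / (24 * T)) ^ 2 / 4))) (D := eD B n m)
    (β := 384 / (T:ℝ) ^ 2) (e := eC B T n m) (γ := 160 / (T : ℝ) ^ 3)
    (b := ((1 + 2 * (T : ℝ)) * B) * (2 * Real.log U + 3) * (n + 2) * (60 * Real.exp (-((m - 4) * (U / 4) / 4))))
    (η := (2 * Real.log U + 3) * (96 / ((T : ℝ) ^ 3 * √(U / 4)))) (n16 := 16 * (n:ℝ)) hI0 hq (norm_nonneg _) (by positivity) hB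
    (by norm_num) hC rfl hD hD0 (hn2 n hnT) (by positivity) ?_ ?_ (hn4 n) he0 (num5 hB (by omega) hnT hU1) (num6 hU1 (by omega)) ?_
  · rw [div_le_one (by positivity)]
    nlinarith
  · rw [mul_div_assoc', div_le_one (by positivity)]
    nlinarith
  · have e1 : eC B T n m * ((2 * Real.log U + 3) * (96 / ((T : ℝ) ^ 3 * √(U / 4)))) =
        eC B T n m * (2 * Real.log U + 3) * (96 / ((T : ℝ) ^ 3 * √(U / 4))) := by ring
    rw [e1]
    have e2 : 1 / 2 * (‖Gt mr t n‖ * I0 m) = 1 / 2 * ‖Gt mr t n‖ * I0 m := by ring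
    rw [e2]
    exact hmain

end Pool.Agent.Helper71.ST
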