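import Pool.Agent.Helper96.ST.R
import Pool.Agent.Helper56.ST.N
import Pool.Agent.Helper11.ST.F
import Pool.Agent.Helper50.ST.Gr
import Pool.Agent.Helper85.EQ.R3b

/-!
# Project ST: the comparison of the two ends
-/

set_option autoImplicit false

namespace Pool.Agent.Helper71.ST

open MeasureTheory Set Filter Topology
open Pool.Agent.Helper99.MS
open Pool.Agent.Helper96.ST (recc tc_cont tc_bd)
open Pool.Agent.Helper82.ST (fk_supp fk_int fk_norm)
open Pool.Agent.Helper56.ST (v0_bd near near_crude)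
open Pool.Agent.Helper11.ST (far)
open Pool.Agent.Helper50.ST (Dt_growth)
open Pool.Agent.Helper47.ST (I0_ge)

/-- the rotation -/
theorem rot_ex (G : ℂ) : ∃ ω : ℂ, ‖ω‖ = 1 ∧ ω * G = (‖G‖ : ℂ) := by
  by_cases hG : G = 0
  · exact ⟨1, by simp, by simp [hG]⟩
  · have h0 : ‖G‖ ≠ 0 := norm_ne_zero_iff.2 hG
    refine ⟨(starRingEnd ℂ) G / (‖G‖ : ℂ), ?_, ?_⟩
    · rw [norm_div, RCLike.norm_conj, Complex.norm_real, norm_norm, div_self h0]
    · rw [div_mul_eq_mul_div, mul_comm, Complex.mul_conj, Complex.normSq_eq_norm_sq]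
      push_cast
      have : (‖G‖ : ℂ) ≠ 0 := by exact_mod_cast h0
      field_simp

/-- the dual error -/
noncomputable def eD (B : ℝ) (n : ℕ) (m : ℝ) : ℝ := 912 * B * CE * √n / √m

/-- the growth constant of the average -/
noncomputable def eC (B : ℝ) (T n : ℕ) (m : ℝ) : ℝ := ell ((T : ℝ) + 2) * (4 * √n) * cC2 B m

theorem core_step {B : ℝ} (h : GB (ff mr) B) {T n : ℕ} (hT : 16 ≤ T) (hn : 1 ≤ n) (hnT : n ≤ T) {t U C₁ : ℝ} (ht : |t| ≤ T)
    (hUT : 8 * (T : ℝ) ≤ U) (hC : 0 ≤ C₁) {J : ℕ} (hJ : (J : ℝ) * (2 * U) + 1 ≤ U ^ 2) {m : ℝ} (hmdef : m = ((4 * T ^ 3 : ℕ) : ℝ))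
    (hp : (1 + 2 * (ell ((T : ℝ) + 2) * (4 * √n) * (cC2 B m * (2 * Real.log U + 3) * (16 * (T : ℝ) ^ 3 * CS))) / I0 m) ^
      (2 * (ZL ((T : ℝ) ^ 3)).card) < (J : ℝ) + 1)
    (hw : ∀ x : ℝ, U ≤ x → x ≤ 2 * U * J + U → ‖Gt mr t (Real.exp x)‖ ≤ C₁ * Real.exp (x / 2)) :
    2 * Real.pi * (‖Gt mr t n‖ * I0 m - (1 / 2 * ‖Gt mr t n‖ * I0 m + 600 * (n + 1) * Real.exp (-((m - 4) * (1 / (24 * T)) ^ 2 / 4)) +
        eD B n m)) - (‖Gt mr t n‖ * I0 m + (16 * n * I0 m + eD B n m)) * (16 / ((T : ℝ) ^ 3 * (1 / (24 * T)))) -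
        eC B T n m * (32 / ((T : ℝ) ^ 3 * (1 / 2)) + 96 / (T : ℝ) ^ 3) ≤
      2 * Real.pi * (5 * √n * (2 * C₁ * I0 m + ((1 + 2 * (T : ℝ)) * B) * (2 * Real.log U + 3) * (n + 2) *
        (60 * Real.exp (-((m - 4) * (U / 4) / 4)))) + eD B n m) + eC B T n m * (2 * Real.log U + 3) * (96 / ((T : ℝ) ^ 3 * √(U / 4))) +
        I0 m := by
  have hB := h.nonneg
  have hCE := CE_nonneg
  have hT' : (16 : ℝ) ≤ T := by exact_mod_cast hT
  have hn' : (1 : ℝ) ≤ n := by exact_mod_cast hn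
  have hnT' : (n : ℝ) ≤ T := by exact_mod_cast hnT
  have hk : 16 ≤ T ^ 3 := hT.trans (Nat.le_self_pow (by norm_num) T)
  have hU0 : 0 < U := by linarith
  have hU4 : 4 ≤ U := by linarith
  obtain ⟨hv1, hv2, hv3⟩ := v0_bd hn
  set v0 := Real.log ((n : ℝ) + 1 / 2) with hv0
  have hδ : (0:ℝ) < 1 / (24 * n) := by positivity
  have hδ1 : (1:ℝ) / (24 * n) ≤ 1 / 16 := by
    apply one_div_le_one_div_of_le (by norm_num)
    linarith
  set δ : ℝ := 1 / (24 * n) with hδdef
  have hm64 : (64:ℝ) ≤ m := by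
    rw [hmdef]
    have : 16 ≤ T ^ 3 := hk
    have h64 : 64 ≤ 4 * T ^ 3 := by omega
    exact_mod_cast h64
  have hm4 : (4:ℝ) ≤ m := by linarith
  have hI0 : 0 < I0 m := lt_of_lt_of_le (by positivity) (I0_ge hm4)
  set f := fk t v0 δ with hf
  have hfi : Integrable f := fk_int hδ hδ1 hv1 t
  have hfs : ∀ y, ((T : ℝ) + 2) < |y| → f y = 0 := by
    intro y hy
    apply fk_supp hδ hδ1 hv1 t
    rcases lt_abs.1 hy with h1 | h1
    · left
      linarith
    · right
      linarith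
  have hR : (1:ℝ) ≤ (T : ℝ) + 2 := by linarith
  have hfn : ∫ y, ‖f y‖ ≤ 4 * √n := by
    refine (fk_norm hδ hδ1 hv1 t).trans ?_
    linarith
  set g := Tc f (gg (4 * T ^ 3)) with hg
  have hgc : Continuous g := tc_cont h (by omega) hR hfi hfs
  have hcc : 0 ≤ cC2 B m := Pool.Agent.Helper96.EQ.cC2_nonneg hB (by linarith)
  have hC2 : 0 ≤ eC B T n m := by
    unfold eC
    have := ell_nonneg ((T : ℝ) + 2)
    positivity
  have hgb : ∀ v, ‖g v‖ ≤ eC B T n m * ell v := by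
    intro v
    refine (tc_bd h (by omega) hR hfi hfs v).trans ?_
    rw [← hmdef]
    unfold eC
    have h1 := ell_nonneg ((T : ℝ) + 2)
    have h2 := ell_nonneg v
    gcongr
  have hD : 0 ≤ eD B n m := by
    unfold eD
    positivity
  -- recurrence
  have hlogU : 0 ≤ Real.log U := Real.log_nonneg (by linarith)
  have hL1 : (1:ℝ) ≤ (T : ℝ) ^ 3 := one_le_pow₀ (by linarith)
  have hL0 : (0:ℝ) < (T : ℝ) ^ 3 := by linarith
  have hexpY : Real.exp (2 * Real.log U) = U ^ 2 := by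
    rw [two_mul, Real.exp_add, Real.exp_log hU0, sq]
  obtain ⟨j, hj1, hjJ, hj⟩ := recc h (k := T ^ 3) (by omega) (L := (T : ℝ) ^ 3) (R := (T : ℝ) + 2) hL1 hR hfi hfs
    (Y := 2 * Real.log U) (τ := 2 * U) (ε := I0 m) (F := 4 * √n) (by linarith) (J := J) (by linarith) (by rw [hexpY]; exact hJ) hI0 hfn
    (by rw [← hmdef]; exact hp)
  obtain ⟨ω, hω1, hω2⟩ := rot_ex (Gt mr t n)
  -- the rotated function
  set g' : ℝ → ℂ := fun v => ω * g v with hg'
  have hg'c : Continuous g' := continuous_const.mul hgc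
  have hg'b : ∀ v, ‖g' v‖ ≤ eC B T n m * ell v := by
    intro v
    simp only [hg']
    rw [norm_mul, hω1, one_mul]
    exact hgb v
  have hr0 : (0:ℝ) < 1 / (24 * T) := by positivity
  have hr1 : (1:ℝ) / (24 * T) ≤ 1 / (24 * n) := by
    apply one_div_le_one_div_of_le (by positivity)
    linarith
  have htr : |t| * (1 / (24 * T)) ≤ 1 / 8 := by
    calc |t| * (1 / (24 * T)) ≤ T * (1 / (24 * T)) := mul_le_mul_of_nonneg_right ht hr0.le
      _ = 1 / 24 := by
          have : (T:ℝ) ≠ 0 := by linarith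
          field_simp
      _ ≤ 1 / 8 := by norm_num
  have hlow := Pool.Agent.Helper63.EQ.low_gen2 (g := g') hg'c hC2 hg'b (H := ‖Gt mr t n‖ * I0 m)
    (E := 1 / 2 * ‖Gt mr t n‖ * I0 m + 600 * (n + 1) * Real.exp (-((m - 4) * (1 / (24 * T)) ^ 2 / 4)) + eD B n m)
    (E' := 16 * n * I0 m + eD B n m) (θ := 1 / (24 * T)) (θ₁ := 1 / 2) (L := (T : ℝ) ^ 3) (by positivity) (by positivity)
    (by positivity) hr0 (by
      refine hr1.trans ?_
      apply one_div_le_one_div_of_le (by norm_num)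
      linarith) (by norm_num) hL1 (by
      intro v hv
      have h1 := near h hk hn hr0 hr1 htr hv
      rw [← hmdef] at h1
      have h2 : ‖g' v - ((‖Gt mr t n‖ * I0 m : ℝ) : ℂ)‖ ≤ 1 / 2 * ‖Gt mr t n‖ * I0 m +
          600 * (n + 1) * Real.exp (-((m - 4) * (1 / (24 * T)) ^ 2 / 4)) + eD B n m := by
        have e : g' v - ((‖Gt mr t n‖ * I0 m : ℝ) : ℂ) = ω * (g v - Gt mr t n * (I0 m : ℂ)) := by
          push_cast
          rw [← hω2]
          simp only [hg']
          ring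
        rw [e, norm_mul, hω1, one_mul]
        exact h1
      have h3 := (abs_le.1 ((Complex.abs_re_le_norm _).trans h2)).1
      rw [Complex.sub_re, Complex.ofReal_re] at h3
      linarith) (by
      intro v hv
      have h1 := near_crude h hk hn (t := t) hv
      rw [← hmdef] at h1
      have h2 : ‖g' v‖ ≤ 16 * n * I0 m + eD B n m := by
        simp only [hg']
        rw [norm_mul, hω1, one_mul]
        exact h1
      exact (abs_le.1 ((Complex.abs_re_le_norm _).trans h2)).1)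
  -- the far point
  have hj1' : (1:ℝ) ≤ j := by exact_mod_cast hj1
  have hjJ' : (j:ℝ) ≤ J := by exact_mod_cast hjJ
  have hu2 : 2 * U ≤ j * (2 * U) := by nlinarith
  have hu3 : j * (2 * U) ≤ J * (2 * U) := by nlinarith
  have hel : ∀ v, |v| ≤ U / 4 → ell (v + j * (2 * U)) ≤ 2 * Real.log U + 3 := by
    intro v hv
    have h1 := abs_le.1 hv
    apply ell_le_Y (by linarith)
    rw [hexpY, abs_of_nonneg (by linarith)]
    nlinarith
  have hfar : ∀ v, |v| ≤ U / 4 → (g' (v + j * (2 * U))).re ≤ 5 * √n * (2 * C₁ * I0 m + ((1 + 2 * (T : ℝ)) * B) *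
      (2 * Real.log U + 3) * (n + 2) * (60 * Real.exp (-((m - 4) * (U / 4) / 4)))) + eD B n m := by
    intro v hv
    have hv' := abs_le.1 hv
    have h1 := far h hk hn (t := t) (V := v + j * (2 * U)) (ρ := U / 4) (C₁ := C₁) (B₂ := (1 + 2 * (T : ℝ)) * B) (by linarith)
      (by linarith) hC (by
        intro x hx
        have hx' := abs_le.1 hx
        have hxU : U ≤ x := by linarith
        have hxJ : x ≤ 2 * U * J + U := by linarith
        have h2 := hw x hxU hxJ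
        unfold Dt
        rw [norm_mul, Complex.norm_exp]
        have h3 : (-((1 / 2 + (t : ℂ) * Complex.I) * x)).re = -(x / 2) := by
          simp
          ring
        rw [h3]
        calc ‖Gt mr t (Real.exp x)‖ * Real.exp (-(x / 2)) ≤ (C₁ * Real.exp (x / 2)) * Real.exp (-(x / 2)) :=
              mul_le_mul_of_nonneg_right h2 (Real.exp_pos _).le
          _ = C₁ := by
              rw [mul_assoc, ← Real.exp_add]
              simp) (by positivity) (by
        intro x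
        refine (Dt_growth h t x).trans ?_
        have := ell_nonneg x
        gcongr)
    rw [← hmdef] at h1
    have h4 : (g' (v + j * (2 * U))).re ≤ ‖g (v + j * (2 * U))‖ := by
      have h5 := (abs_le.1 (Complex.abs_re_le_norm (g' (v + j * (2 * U))))).2
      have h6 : ‖g' (v + j * (2 * U))‖ = ‖g (v + j * (2 * U))‖ := by
        simp only [hg']
        rw [norm_mul, hω1, one_mul]
      rw [h6] at h5
      exact h5
    refine h4.trans (h1.trans ?_)
    have h7 := hel v hv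
    have h8 := ell_nonneg (v + j * (2 * U))
    unfold eD
    gcongr
  have hc0 : 0 ≤ 5 * √n * (2 * C₁ * I0 m + ((1 + 2 * (T : ℝ)) * B) *
      (2 * Real.log U + 3) * (n + 2) * (60 * Real.exp (-((m - 4) * (U / 4) / 4)))) + eD B n m := by positivity
  have hup := up_far (g := g') hg'c hg'b hC2 (u := j * (2 * U)) (ρ := U / 4) (by linarith) hc0 hfar hL0
  have hell0 := hel 0 (by rw [abs_zero]; linarith)
  rw [zero_add] at hell0
  -- comparison
  have e1 : ∫ v, g' (v + j * (2 * U)) * (KL ((T : ℝ) ^ 3) v : ℂ) = ω * ∫ v, g (v + j * (2 * U)) * (KL ((T : ℝ) ^ 3) v : ℂ) := by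
    rw [← integral_const_mul]
    congr 1
    funext v
    simp only [hg']
    ring
  have e2 : ∫ v, g' v * (KL ((T : ℝ) ^ 3) v : ℂ) = ω * ∫ v, g v * (KL ((T : ℝ) ^ 3) v : ℂ) := by
    rw [← integral_const_mul]
    congr 1
    funext v
    simp only [hg']
    ring
  have h9 : ‖(∫ v, g' (v + j * (2 * U)) * (KL ((T : ℝ) ^ 3) v : ℂ)) - ∫ v, g' v * (KL ((T : ℝ) ^ 3) v : ℂ)‖ ≤ I0 m := by
    rw [e1, e2, ← mul_sub, norm_mul, hω1, one_mul]
    exact hj.le
  have h10 := (abs_le.1 ((Complex.abs_re_le_norm _).trans h9)).1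
  rw [Complex.sub_re] at h10
  have h11 : eC B T n m * ell (j * (2 * U)) * (96 / ((T : ℝ) ^ 3 * √(U / 4))) ≤
      eC B T n m * (2 * Real.log U + 3) * (96 / ((T : ℝ) ^ 3 * √(U / 4))) := by gcongr
  linarith

end Pool.Agent.Helper71.ST
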