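import Pool.Agent.Helper71.ST.C1

/-!
# Project ST: the numbers
-/

set_option autoImplicit false

namespace Pool.Agent.Helper71.ST

open MeasureTheory Set Filter Topology
open Pool.Agent.Helper99.MS
open Pool.Agent.Helper47.ST (I0_ge)

theorem sqrt_m_le {T : ℕ} (hT : 1 ≤ T) : √((4 * T ^ 3 : ℕ) : ℝ) ≤ 2 * (T : ℝ) ^ 2 := by
  have hT' : (1:ℝ) ≤ T := by exact_mod_cast hT
  apply Real.sqrt_le_iff.2
  refine ⟨by positivity, ?_⟩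
  push_cast
  have : (T:ℝ) ^ 3 ≤ (T:ℝ) ^ 4 := pow_le_pow_right₀ hT' (by norm_num)
  nlinarith

theorem I0_ge' {T : ℕ} (hT : 1 ≤ T) : 1 / (4 * (T : ℝ) ^ 2) ≤ I0 ((4 * T ^ 3 : ℕ) : ℝ) := by
  have hT' : (1:ℝ) ≤ T := by exact_mod_cast hT
  have hm : (4:ℝ) ≤ ((4 * T ^ 3 : ℕ) : ℝ) := by
    push_cast
    have : (1:ℝ) ≤ (T:ℝ) ^ 3 := one_le_pow₀ hT'
    linarith
  refine le_trans ?_ (I0_ge hm)
  have h1 := sqrt_m_le hT
  have h2 : 0 < √((4 * T ^ 3 : ℕ) : ℝ) := Real.sqrt_pos.2 (by linarith)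
  apply one_div_le_one_div_of_le (by linarith)
  linarith

/-- (2) -/
theorem num2 : ∀ᶠ T : ℕ in atTop, ∀ n : ℕ, n ≤ T →
    600 * ((n : ℝ) + 1) * Real.exp (-((((4 * T ^ 3 : ℕ) : ℝ) - 4) * (1 / (24 * T)) ^ 2 / 4)) ≤ I0 ((4 * T ^ 3 : ℕ) : ℝ) := by
  have h1 : Tendsto (fun T : ℕ => ((T : ℝ) / 1152) ^ 3 * Real.exp (-((T : ℝ) / 1152))) atTop (𝓝 0) := by
    have h2 : Tendsto (fun T : ℕ => (T : ℝ) / 1152) atTop atTop := tendsto_natCast_atTop_atTop.atTop_div_const (by norm_num)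
    exact (Real.tendsto_pow_mul_exp_neg_atTop_nhds_zero 3).comp h2
  have h3 := h1.eventually (gt_mem_nhds (show (0:ℝ) < 1 / (4800 * 1152 ^ 3) by positivity))
  filter_upwards [h3, eventually_ge_atTop 2] with T hT hT2 n hn
  have hT' : (2:ℝ) ≤ T := by exact_mod_cast hT2
  have hn' : (n:ℝ) ≤ T := by exact_mod_cast hn
  refine le_trans ?_ (I0_ge' (by omega))
  have hm : (((4 * T ^ 3 : ℕ) : ℝ) - 4) * (1 / (24 * T)) ^ 2 / 4 = ((T:ℝ) ^ 3 - 1) / (576 * (T:ℝ) ^ 2) := by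
    have : (T:ℝ) ≠ 0 := by linarith
    push_cast
    field_simp
    ring
  have hT0 : (0:ℝ) < T := by linarith
  have h5 : (T:ℝ) / 1152 ≤ ((T:ℝ) ^ 3 - 1) / (576 * (T:ℝ) ^ 2) := by
    rw [div_le_div_iff₀ (by norm_num) (by positivity)]
    have : (8:ℝ) ≤ (T:ℝ) ^ 3 := by
      have := pow_le_pow_left₀ (by norm_num) hT' 3
      norm_num at this
      exact this
    nlinarith
  rw [hm]
  have h6 : Real.exp (-(((T:ℝ) ^ 3 - 1) / (576 * (T:ℝ) ^ 2))) ≤ Real.exp (-((T : ℝ) / 1152)) := Real.exp_le_exp.2 (by linarith)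
  have h7 : ((T:ℝ) / 1152) ^ 3 * Real.exp (-((T : ℝ) / 1152)) ≤ 1 / (4800 * 1152 ^ 3) := le_of_lt hT
  have h8 : (T:ℝ) ^ 3 * Real.exp (-((T : ℝ) / 1152)) ≤ 1 / 4800 := by
    have e : (T:ℝ) ^ 3 * Real.exp (-((T : ℝ) / 1152)) = 1152 ^ 3 * (((T:ℝ) / 1152) ^ 3 * Real.exp (-((T : ℝ) / 1152))) := by ring
    rw [e]
    calc 1152 ^ 3 * (((T:ℝ) / 1152) ^ 3 * Real.exp (-((T : ℝ) / 1152))) ≤ 1152 ^ 3 * (1 / (4800 * 1152 ^ 3)) :=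
          mul_le_mul_of_nonneg_left h7 (by norm_num)
      _ = 1 / 4800 := by norm_num
  rw [le_div_iff₀ (by positivity)]
  have hE := Real.exp_pos (-((T : ℝ) / 1152))
  calc 600 * ((n:ℝ) + 1) * Real.exp (-(((T:ℝ) ^ 3 - 1) / (576 * (T:ℝ) ^ 2))) * (4 * (T:ℝ) ^ 2)
      ≤ 600 * (2 * T) * Real.exp (-((T : ℝ) / 1152)) * (4 * (T:ℝ) ^ 2) := by
        gcongr
        linarith
    _ = 4800 * ((T:ℝ) ^ 3 * Real.exp (-((T : ℝ) / 1152))) := by ring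
    _ ≤ 1 := by linarith

/-- (4) -/
theorem num4 {B : ℝ} (hB : 0 ≤ B) : ∀ᶠ T : ℕ in atTop, ∀ n : ℕ,
    eC B T n ((4 * T ^ 3 : ℕ) : ℝ) * (160 / (T : ℝ) ^ 3) ≤ √n * I0 ((4 * T ^ 3 : ℕ) : ℝ) := by
  have hCI := CI_nonneg
  have h1 : Tendsto (fun T : ℕ => (T : ℝ) ^ (1 / 4 : ℝ)) atTop atTop :=
    (tendsto_rpow_atTop (by norm_num : (0:ℝ) < 1 / 4)).comp tendsto_natCast_atTop_atTop
  filter_upwards [h1.eventually_ge_atTop (17 * 2560 * (B * (16 + 88 * CI))), eventually_ge_atTop 3] with T hT hT3 n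
  have hT' : (3:ℝ) ≤ T := by exact_mod_cast hT3
  have hT0 : (0:ℝ) < T := by linarith
  have hT1 : (1:ℝ) ≤ T := by linarith
  -- ell
  have e1 : ell ((T : ℝ) + 2) ≤ 17 * (T : ℝ) ^ (1 / 8 : ℝ) := by
    unfold ell
    rw [abs_of_nonneg (by linarith)]
    have h2 := Real.log_le_rpow_div (show (0:ℝ) ≤ 1 + ((T : ℝ) + 2) by linarith) (show (0:ℝ) < 1 / 8 by norm_num)
    have h3 : (1 + ((T : ℝ) + 2)) ^ (1 / 8 : ℝ) ≤ (2 * (T : ℝ)) ^ (1 / 8 : ℝ) :=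
      Real.rpow_le_rpow (by linarith) (by linarith) (by norm_num)
    rw [Real.mul_rpow (by norm_num) hT0.le] at h3
    have h4 : (2:ℝ) ^ (1 / 8 : ℝ) ≤ 2 := by
      calc (2:ℝ) ^ (1 / 8 : ℝ) ≤ (2:ℝ) ^ (1:ℝ) := Real.rpow_le_rpow_of_exponent_le (by norm_num) (by norm_num)
        _ = 2 := Real.rpow_one 2
    have h5 : (1:ℝ) ≤ (T : ℝ) ^ (1 / 8 : ℝ) := Real.one_le_rpow hT1 (by norm_num)
    have h6 : (2:ℝ) ^ (1 / 8 : ℝ) * (T : ℝ) ^ (1 / 8 : ℝ) ≤ 2 * (T : ℝ) ^ (1 / 8 : ℝ) := by gcongr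
    have h7 : (1 + ((T : ℝ) + 2)) ^ (1 / 8 : ℝ) / (1 / 8) = 8 * (1 + ((T : ℝ) + 2)) ^ (1 / 8 : ℝ) := by ring
    rw [h7] at h2
    linarith
  have e2 : (((4 * T ^ 3 : ℕ) : ℝ)) ^ (3 / 8 : ℝ) ≤ 2 * (T : ℝ) ^ (9 / 8 : ℝ) := by
    push_cast
    rw [Real.mul_rpow (by norm_num) (by positivity), ← Real.rpow_natCast (T : ℝ) 3, ← Real.rpow_mul hT0.le]
    have h4 : (4:ℝ) ^ (3 / 8 : ℝ) ≤ 2 := by
      calc (4:ℝ) ^ (3 / 8 : ℝ) ≤ (4:ℝ) ^ (1 / 2 : ℝ) := Real.rpow_le_rpow_of_exponent_le (by norm_num) (by norm_num)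
        _ = 2 := by
          rw [← Real.sqrt_eq_rpow, show (4:ℝ) = 2 ^ 2 by norm_num, Real.sqrt_sq (by norm_num)]
    have h5 : ((3 : ℕ) : ℝ) * (3 / 8) = 9 / 8 := by norm_num
    rw [h5]
    gcongr
  have e3 : √((4 * T ^ 3 : ℕ) : ℝ) = 2 * (T : ℝ) ^ (3 / 2 : ℝ) := by
    push_cast
    rw [Real.sqrt_mul (by norm_num), show (4:ℝ) = 2 ^ 2 by norm_num, Real.sqrt_sq (by norm_num), Real.sqrt_eq_rpow,
      ← Real.rpow_natCast (T : ℝ) 3, ← Real.rpow_mul hT0.le]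
    norm_num
  have hm : (4:ℝ) ≤ ((4 * T ^ 3 : ℕ) : ℝ) := by
    push_cast
    have : (1:ℝ) ≤ (T:ℝ) ^ 3 := one_le_pow₀ hT1
    linarith
  have e4 := I0_ge hm
  rw [e3] at e4
  have e5 : cC2 B ((4 * T ^ 3 : ℕ) : ℝ) ≤ (B * (16 + 88 * CI)) * (T : ℝ) ^ (9 / 8 : ℝ) := by
    unfold cC2
    have h5 : (1:ℝ) ≤ (T : ℝ) ^ (9 / 8 : ℝ) := Real.one_le_rpow hT1 (by norm_num)
    rw [show B * (16 + 88 * CI) * (T : ℝ) ^ (9 / 8 : ℝ) = B * ((16 + 88 * CI) * (T : ℝ) ^ (9 / 8 : ℝ)) by ring]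
    apply mul_le_mul_of_nonneg_left _ hB
    have h6 : 44 * (((4 * T ^ 3 : ℕ) : ℝ)) ^ (3 / 8 : ℝ) * CI ≤ 44 * (2 * (T : ℝ) ^ (9 / 8 : ℝ)) * CI := by gcongr
    nlinarith
  have hcc : 0 ≤ cC2 B ((4 * T ^ 3 : ℕ) : ℝ) := Pool.Agent.Helper96.EQ.cC2_nonneg hB (by linarith)
  have hK : 0 ≤ B * (16 + 88 * CI) := by positivity
  have r1 : (T : ℝ) ^ (1 / 8 : ℝ) * (T : ℝ) ^ (9 / 8 : ℝ) = (T : ℝ) ^ (5 / 4 : ℝ) := by
    rw [← Real.rpow_add hT0]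
    norm_num
  have r2 : (T : ℝ) ^ (5 / 4 : ℝ) * ((T : ℝ) ^ (3 / 2 : ℝ) * (T : ℝ) ^ (1 / 4 : ℝ)) = (T : ℝ) ^ 3 := by
    rw [← Real.rpow_add hT0, ← Real.rpow_add hT0, ← Real.rpow_natCast (T : ℝ) 3]
    norm_num
  have hq := Real.sqrt_nonneg (n : ℝ)
  calc eC B T n ((4 * T ^ 3 : ℕ) : ℝ) * (160 / (T : ℝ) ^ 3)
      ≤ ((17 * (T : ℝ) ^ (1 / 8 : ℝ)) * (4 * √n) * ((B * (16 + 88 * CI)) * (T : ℝ) ^ (9 / 8 : ℝ))) * (160 / (T : ℝ) ^ 3) := by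
        unfold eC
        gcongr
    _ = √n * ((17 * 640 * (B * (16 + 88 * CI))) * ((T : ℝ) ^ (1 / 8 : ℝ) * (T : ℝ) ^ (9 / 8 : ℝ)) / (T : ℝ) ^ 3) := by ring
    _ = √n * ((17 * 640 * (B * (16 + 88 * CI))) * (T : ℝ) ^ (5 / 4 : ℝ) / (T : ℝ) ^ 3) := by rw [r1]
    _ ≤ √n * (1 / (2 * (2 * (T : ℝ) ^ (3 / 2 : ℝ)))) := by
        apply mul_le_mul_of_nonneg_left _ hq
        have p1 : 0 < (T : ℝ) ^ (3 / 2 : ℝ) := Real.rpow_pos_of_pos hT0 _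
        have p2 : 0 < (T : ℝ) ^ (5 / 4 : ℝ) := Real.rpow_pos_of_pos hT0 _
        rw [div_le_div_iff₀ (by positivity) (by positivity), ← r2]
        have h8 : (17 * 640 * (B * (16 + 88 * CI))) * 4 ≤ (T : ℝ) ^ (1 / 4 : ℝ) := by linarith
        calc 17 * 640 * (B * (16 + 88 * CI)) * (T : ℝ) ^ (5 / 4 : ℝ) * (2 * (2 * (T : ℝ) ^ (3 / 2 : ℝ)))
            = ((17 * 640 * (B * (16 + 88 * CI))) * 4) * ((T : ℝ) ^ (5 / 4 : ℝ) * (T : ℝ) ^ (3 / 2 : ℝ)) := by ring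
          _ ≤ (T : ℝ) ^ (1 / 4 : ℝ) * ((T : ℝ) ^ (5 / 4 : ℝ) * (T : ℝ) ^ (3 / 2 : ℝ)) := by gcongr
          _ = _ := by ring
    _ ≤ √n * I0 ((4 * T ^ 3 : ℕ) : ℝ) := mul_le_mul_of_nonneg_left e4 hq

/-- (5) -/
theorem num5 {B U : ℝ} (hB : 0 ≤ B) {T n : ℕ} (hT : 2 ≤ T) (hnT : n ≤ T) (hU : 1 ≤ U) :
    ((1 + 2 * (T : ℝ)) * B) * (2 * Real.log U + 3) * (n + 2) *
      (60 * Real.exp (-((((4 * T ^ 3 : ℕ) : ℝ) - 4) * (U / 4) / 4))) ≤ 829440 * B * I0 ((4 * T ^ 3 : ℕ) : ℝ) := by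
  have hT' : (2:ℝ) ≤ T := by exact_mod_cast hT
  have hn' : (n:ℝ) ≤ T := by exact_mod_cast hnT
  have hU0 : 0 < U := by linarith
  have hl : 2 * Real.log U + 3 ≤ 3 * U := by
    have := Real.log_le_sub_one_of_pos hU0
    linarith
  have hl0 : 0 ≤ Real.log U := Real.log_nonneg hU
  have h8 : (8:ℝ) ≤ (T:ℝ) ^ 3 := by
    have := pow_le_pow_left₀ (by norm_num) hT' 3
    norm_num at this
    exact this
  have hz : (T:ℝ) ^ 3 * U / 8 ≤ (((4 * T ^ 3 : ℕ) : ℝ) - 4) * (U / 4) / 4 := by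
    push_cast
    nlinarith
  set z := (T:ℝ) ^ 3 * U / 8 with hzdef
  have hz0 : 0 < z := by positivity
  have h1 : Real.exp (-((((4 * T ^ 3 : ℕ) : ℝ) - 4) * (U / 4) / 4)) ≤ 2 / z ^ 2 := by
    refine (Real.exp_le_exp.2 (neg_le_neg hz)).trans ?_
    rw [Real.exp_neg, inv_eq_one_div, div_le_div_iff₀ (Real.exp_pos _) (by positivity)]
    have := Real.quadratic_le_exp_of_nonneg hz0.le
    nlinarith
  have hI := I0_ge' (T := T) (by omega)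
  have hT0 : (0:ℝ) < T := by linarith
  calc ((1 + 2 * (T : ℝ)) * B) * (2 * Real.log U + 3) * (n + 2) *
      (60 * Real.exp (-((((4 * T ^ 3 : ℕ) : ℝ) - 4) * (U / 4) / 4)))
      ≤ ((3 * (T : ℝ)) * B) * (3 * U) * (3 * T) * (60 * (2 / z ^ 2)) := by
        gcongr
        · linarith
        · linarith
    _ = 207360 * B / ((T:ℝ) ^ 4 * U) := by
        rw [hzdef]
        field_simp
        ring
    _ ≤ 829440 * B * (1 / (4 * (T : ℝ) ^ 2)) := by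
        have h2 : 207360 * B / ((T:ℝ) ^ 4 * U) ≤ 207360 * B / ((T:ℝ) ^ 2 * 1) := by
          gcongr
          · linarith
          · norm_num
        refine h2.trans (le_of_eq ?_)
        field_simp
        ring
    _ ≤ _ := by gcongr

/-- (6) -/
theorem num6 {U : ℝ} (hU : 1 ≤ U) {T : ℕ} (hT : 1 ≤ T) :
    (2 * Real.log U + 3) * (96 / ((T : ℝ) ^ 3 * √(U / 4))) ≤ 9 * (160 / (T : ℝ) ^ 3) := by
  have hT' : (1:ℝ) ≤ T := by exact_mod_cast hT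
  have hU0 : 0 < U := by linarith
  have hs : 0 < √U := Real.sqrt_pos.2 hU0
  have hs1 : 1 ≤ √U := Real.one_le_sqrt.2 hU
  have h1 : √(U / 4) = √U / 2 := by
    rw [Real.sqrt_div hU0.le, show (4:ℝ) = 2 ^ 2 by norm_num, Real.sqrt_sq (by norm_num)]
  have h2 : Real.log U ≤ 2 * √U - 2 := by
    have h3 : Real.log U = 2 * Real.log (√U) := by
      rw [Real.log_sqrt hU0.le]
      ring
    have := Real.log_le_sub_one_of_pos hs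
    linarith
  have hT0 : (0:ℝ) < (T:ℝ) ^ 3 := by positivity
  rw [h1]
  calc (2 * Real.log U + 3) * (96 / ((T : ℝ) ^ 3 * (√U / 2))) ≤ (4 * √U) * (96 / ((T : ℝ) ^ 3 * (√U / 2))) := by
        gcongr
        linarith
    _ = 768 / (T:ℝ) ^ 3 := by
        field_simp
        ring
    _ ≤ 9 * (160 / (T : ℝ) ^ 3) := by
        rw [mul_div_assoc']
        gcongr
        norm_num

end Pool.Agent.Helper71.ST
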